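import Pool.Agent.T9h56.TG.Count
import Pool.Agent.T9h18.TG.Liouville

/-!
# The layer-cake estimate for the logarithm of a polynomial at roots of unity (S18789)
-/

set_option autoImplicit false

namespace Pool.Agent.T9h82.TG

open Filter Topology Pool.Agent.T9h56.TG

theorem cnt_sum {N n : ℕ} (p : (Fin N → Fin n) → Prop) [DecidablePred p] :
    (cnt p : ℝ) = ∑ k : Fin N → Fin n, if p k then (1 : ℝ) else 0 := by
  unfold cnt
  rw [Finset.card_filter]
  push_cast
  refine Finset.sum_congr rfl fun k _ => ?_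
  congr!

/-- the pointwise layer-cake inequality -/
theorem layer_pt {x : ℝ} {K M : ℕ} (hx : x ≤ M) :
    max 0 (x - K) ≤ ∑ j ∈ Finset.Ico K (M + 1), if (j : ℝ) ≤ x then (1 : ℝ) else 0 := by
  have h0 : 0 ≤ ∑ j ∈ Finset.Ico K (M + 1), if (j : ℝ) ≤ x then (1 : ℝ) else 0 :=
    Finset.sum_nonneg fun j _ => by split_ifs <;> norm_num
  rcases le_or_gt x K with h | h
  · rw [max_eq_left (by linarith)]
    exact h0
  · have hx0 : 0 ≤ x := (Nat.cast_nonneg K).trans h.le
    refine max_le h0 ?_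
    set m := ⌊x⌋₊ with hm
    have hmx : (m : ℝ) ≤ x := Nat.floor_le hx0
    have hxm : x < m + 1 := Nat.lt_floor_add_one x
    have hmM : m ≤ M := by
      have : (m : ℝ) ≤ M := hmx.trans hx
      exact_mod_cast this
    have hsub : Finset.Ico K (m + 1) ⊆ Finset.Ico K (M + 1) :=
      Finset.Ico_subset_Ico le_rfl (by omega)
    calc x - K ≤ ((m + 1 - K : ℕ) : ℝ) := by
          have hK : K ≤ m + 1 := by
            have : (K : ℝ) < m + 1 := h.trans hxm
            exact_mod_cast this.le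
          rw [Nat.cast_sub hK]
          push_cast
          linarith
      _ = ∑ j ∈ Finset.Ico K (m + 1), (1 : ℝ) := by
          rw [Finset.sum_const, Nat.card_Ico, nsmul_eq_mul, mul_one]
      _ = ∑ j ∈ Finset.Ico K (m + 1), if (j : ℝ) ≤ x then (1 : ℝ) else 0 := by
          refine Finset.sum_congr rfl fun j hj => ?_
          rw [Finset.mem_Ico] at hj
          have h1 : (j : ℝ) ≤ m := by exact_mod_cast Nat.lt_succ_iff.1 hj.2
          rw [if_pos (h1.trans hmx)]
      _ ≤ _ := Finset.sum_le_sum_of_subset_of_nonneg hsub fun j _ _ => by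
          split_ifs <;> norm_num

theorem tail_of (N : ℕ) (f : MvPolynomial (Fin N) ℤ) (hf : f ≠ 0)
    (hQ : ∀ ε : ℝ, 0 < ε → ∀ δ : ℝ, 0 < δ → ∀ᶠ n : ℕ in atTop,
      (cnt (fun k : Fin N → Fin n => 0 < ‖vl f k‖ ∧ ‖vl f k‖ ≤ Real.exp (-(ε * n))) : ℝ) * n ≤
        δ * n ^ N) (δ : ℝ) (hδ : 0 < δ) :
    ∀ᶠ K : ℕ in atTop, ∀ᶠ n : ℕ in atTop, ∑ k : Fin N → Fin n,
      (if vl f k = 0 then (0 : ℝ) else max 0 (-Real.log ‖vl f k‖ - K)) ≤ δ * n ^ N := by
  classical
  obtain ⟨C, α, hC, hα, hcard⟩ := card_le N f hf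
  obtain ⟨L, hL, hliou⟩ := Pool.Agent.T9h18.TG.liouville N f
  set r : ℝ := Real.exp (-α) with hr
  have hr0 : 0 < r := Real.exp_pos _
  have hr1 : r < 1 := by
    rw [hr, Real.exp_lt_one_iff]
    linarith
  have h1r : 0 < 1 - r := by linarith
  have hK : ∀ᶠ K : ℕ in atTop, C * (r ^ K / (1 - r)) ≤ δ / 4 := by
    have h1 : Tendsto (fun K : ℕ => C * (r ^ K / (1 - r))) atTop (𝓝 (C * (0 / (1 - r)))) :=
      ((tendsto_pow_atTop_nhds_zero_of_lt_one hr0.le hr1).div_const _).const_mul _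
    rw [zero_div, mul_zero] at h1
    exact (h1.eventually (ge_mem_nhds (by positivity : (0 : ℝ) < δ / 4)))
  filter_upwards [hK] with K hK
  set ε : ℝ := δ / (4 * C) with hε
  have hε0 : 0 < ε := by positivity
  set δ' : ℝ := δ / (4 * (L + 2)) with hδ'
  have hδ'0 : 0 < δ' := by positivity
  have hbig : ∀ᶠ n : ℕ in atTop, 4 * C / δ + 1 ≤ (n : ℝ) :=
    tendsto_natCast_atTop_atTop.eventually_ge_atTop _
  filter_upwards [hQ ε hε0 δ' hδ'0, hbig] with n hn hnb
  have hn1 : (1 : ℝ) ≤ n := by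
    have : 0 < 4 * C / δ := by positivity
    linarith
  have hn0 : 0 < n := by
    have : (0 : ℝ) < n := by linarith
    exact_mod_cast this
  have hnR : (0 : ℝ) < n := by linarith
  have hnN : (0 : ℝ) ≤ (n : ℝ) ^ N := by positivity
  set M : ℕ := ⌈L * n⌉₊ with hM
  have hMle : (M : ℝ) ≤ L * n + 1 := (Nat.ceil_lt_add_one (by positivity)).le
  set Q : ℝ := (cnt (fun k : Fin N → Fin n => 0 < ‖vl f k‖ ∧ ‖vl f k‖ ≤
    Real.exp (-(ε * n))) : ℝ) with hQdef
  have hQ0 : 0 ≤ Q := Nat.cast_nonneg _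
  set S : ℕ → ℝ := fun j => (cnt (fun k : Fin N → Fin n => 0 < ‖vl f k‖ ∧ ‖vl f k‖ ≤
    Real.exp (-(j : ℝ))) : ℝ) with hS
  -- step A
  have hA : ∑ k : Fin N → Fin n,
      (if vl f k = 0 then (0 : ℝ) else max 0 (-Real.log ‖vl f k‖ - K)) ≤
      ∑ j ∈ Finset.Ico K (M + 1), S j := by
    have e1 : ∑ j ∈ Finset.Ico K (M + 1), S j = ∑ k : Fin N → Fin n,
        ∑ j ∈ Finset.Ico K (M + 1),
          if 0 < ‖vl f k‖ ∧ ‖vl f k‖ ≤ Real.exp (-(j : ℝ)) then (1 : ℝ) else 0 := by
      rw [Finset.sum_comm]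
      refine Finset.sum_congr rfl fun j _ => ?_
      exact cnt_sum _
    rw [e1]
    refine Finset.sum_le_sum fun k _ => ?_
    by_cases hv : vl f k = 0
    · rw [if_pos hv]
      exact Finset.sum_nonneg fun j _ => by split_ifs <;> norm_num
    · rw [if_neg hv]
      have hv0 : 0 < ‖vl f k‖ := norm_pos_iff.2 hv
      have h2 : Real.exp (-(L * n)) ≤ ‖vl f k‖ := hliou n hn0 k hv
      have h3 : -Real.log ‖vl f k‖ ≤ L * n := by
        have := Real.log_le_log (Real.exp_pos _) h2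
        rw [Real.log_exp] at this
        linarith
      have h4 : -Real.log ‖vl f k‖ ≤ M := h3.trans (Nat.le_ceil _)
      refine (layer_pt (K := K) h4).trans (le_of_eq ?_)
      refine Finset.sum_congr rfl fun j _ => ?_
      have h5 : (j : ℝ) ≤ -Real.log ‖vl f k‖ ↔ 0 < ‖vl f k‖ ∧ ‖vl f k‖ ≤ Real.exp (-(j : ℝ)) := by
        rw [← Real.log_le_iff_le_exp hv0]
        constructor
        · intro h
          exact ⟨hv0, by linarith⟩
        · rintro ⟨-, h⟩
          linarith
      simp only [h5]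
  -- step B
  have hB : ∀ j : ℕ, S j ≤ C * n ^ N * r ^ j +
      (if (j : ℝ) < ε * n then C / n * n ^ N else Q) := by
    intro j
    have hrj : 0 ≤ C * n ^ N * r ^ j := by positivity
    split_ifs with hj
    · have h1 := hcard n hn0 (Real.exp (-(j : ℝ))) (Real.exp_pos _) (by
        rw [Real.exp_le_one_iff]
        have : (0 : ℝ) ≤ j := Nat.cast_nonneg _
        linarith)
      have h2 : S j ≤ (cnt (fun k : Fin N → Fin n => ‖vl f k‖ ≤ Real.exp (-(j : ℝ))) : ℝ) := by
        exact Nat.cast_le.2 (cnt_mono fun k hk => hk.2)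
      refine (h2.trans h1).trans (le_of_eq ?_)
      have h3 : Real.exp (-(j : ℝ)) ^ α = r ^ j := by
        rw [← Real.exp_mul, hr, ← Real.exp_nat_mul]
        congr 1
        ring
      rw [h3]
      ring
    · have h2 : S j ≤ Q := by
        refine Nat.cast_le.2 (cnt_mono fun k hk => ⟨hk.1, hk.2.trans ?_⟩)
        exact Real.exp_le_exp.2 (by linarith [not_lt.1 hj])
      linarith
  have hcount : ∑ j ∈ Finset.Ico K (M + 1), (if (j : ℝ) < ε * n then C / n * (n : ℝ) ^ N else Q) ≤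
      (ε * n + 1) * (C / n * n ^ N) + (M + 1) * Q := by
    have h1 : ∀ j ∈ Finset.Ico K (M + 1), (if (j : ℝ) < ε * n then C / n * (n : ℝ) ^ N else Q) ≤
        (if (j : ℝ) < ε * n then C / n * (n : ℝ) ^ N else 0) + Q := by
      intro j _
      split_ifs
      · linarith
      · linarith
    refine (Finset.sum_le_sum h1).trans ?_
    rw [Finset.sum_add_distrib]
    refine add_le_add ?_ ?_
    · rw [← Finset.sum_filter, Finset.sum_const, nsmul_eq_mul]
      refine mul_le_mul_of_nonneg_right ?_ (by positivity)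
      have h2 : (Finset.Ico K (M + 1)).filter (fun j : ℕ => (j : ℝ) < ε * n) ⊆
          Finset.range (⌈ε * n⌉₊) := by
        intro j hj
        rw [Finset.mem_filter] at hj
        rw [Finset.mem_range]
        exact Nat.lt_ceil.2 hj.2
      have h3 := Finset.card_le_card h2
      rw [Finset.card_range] at h3
      have h4 : (((Finset.Ico K (M + 1)).filter (fun j : ℕ => (j : ℝ) < ε * n)).card : ℝ) ≤
          (⌈ε * n⌉₊ : ℝ) := by exact_mod_cast h3
      exact h4.trans (Nat.ceil_lt_add_one (by positivity)).le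
    · rw [Finset.sum_const, Nat.card_Ico, nsmul_eq_mul]
      refine mul_le_mul_of_nonneg_right ?_ hQ0
      have : ((M + 1 - K : ℕ) : ℝ) ≤ ((M + 1 : ℕ) : ℝ) := by
        exact_mod_cast Nat.sub_le _ _
      push_cast at this
      exact this
  have hgeo : ∑ j ∈ Finset.Ico K (M + 1), C * (n : ℝ) ^ N * r ^ j ≤
      C * (r ^ K / (1 - r)) * n ^ N := by
    rw [← Finset.mul_sum]
    have := geom_sum_Ico_le_of_lt_one hr0.le hr1 (m := K) (n := M + 1)
    calc C * (n : ℝ) ^ N * ∑ j ∈ Finset.Ico K (M + 1), r ^ j ≤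
          C * (n : ℝ) ^ N * (r ^ K / (1 - r)) := mul_le_mul_of_nonneg_left this (by positivity)
      _ = _ := by ring
  have htot : ∑ j ∈ Finset.Ico K (M + 1), S j ≤ C * (r ^ K / (1 - r)) * n ^ N +
      ((ε * n + 1) * (C / n * n ^ N) + (M + 1) * Q) := by
    refine (Finset.sum_le_sum fun j _ => hB j).trans ?_
    rw [Finset.sum_add_distrib]
    exact add_le_add hgeo hcount
  refine (hA.trans htot).trans ?_
  have t1 : C * (r ^ K / (1 - r)) * (n : ℝ) ^ N ≤ δ / 4 * n ^ N :=
    mul_le_mul_of_nonneg_right hK hnN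
  have t2 : (ε * n + 1) * (C / n * (n : ℝ) ^ N) ≤ δ / 2 * n ^ N := by
    have e1 : (ε * n + 1) * (C / n * (n : ℝ) ^ N) = (ε * C + C / n) * n ^ N := by
      field_simp
    rw [e1]
    refine mul_le_mul_of_nonneg_right ?_ hnN
    have e2 : ε * C = δ / 4 := by
      rw [hε]
      field_simp
    have e3 : C / n ≤ δ / 4 := by
      rw [div_le_iff₀ hnR]
      have h1 : 4 * C / δ ≤ n := by linarith
      rw [div_le_iff₀ hδ] at h1
      linarith
    linarith
  have t3 : ((M : ℝ) + 1) * Q ≤ δ / 4 * n ^ N := by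
    have h1 : (M : ℝ) + 1 ≤ (L + 2) * n := by nlinarith
    calc ((M : ℝ) + 1) * Q ≤ (L + 2) * n * Q := mul_le_mul_of_nonneg_right h1 hQ0
      _ = (L + 2) * (Q * n) := by ring
      _ ≤ (L + 2) * (δ' * n ^ N) := mul_le_mul_of_nonneg_left hn (by linarith)
      _ = δ / 4 * n ^ N := by
          rw [hδ']
          field_simp
  linarith

end Pool.Agent.T9h82.TG
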